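import Pool.Agent.H228R6.Ident

set_option autoImplicit false

namespace Pool.Agent.H228R6

open Finset Polynomial

/-- a polynomial with natural coefficients is the generating function of a finite family -/
lemma exists_fam (Y : ℕ[X]) : ∃ (N : ℕ) (f : Fin N → ℕ), ∀ x : ℝ, ∑ i, x ^ f i = aeval x Y := by
  induction Y using Polynomial.induction_on' with
  | add p q hp hq =>
    obtain ⟨N1, f1, h1⟩ := hp
    obtain ⟨N2, f2, h2⟩ := hq
    refine ⟨N1 + N2, Fin.append f1 f2, fun x => ?_⟩
    rw [Fin.sum_univ_add, map_add, ← h1, ← h2]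
    simp
  | monomial n a =>
    refine ⟨a, fun _ => n, fun x => ?_⟩
    simp [aeval_monomial]

/-- finite families of integers with the same sums of powers are equidistributed -/
lemma eqd {κ κ' : Type} [Fintype κ] [Fintype κ'] (f : κ → ℤ) (f' : κ' → ℤ)
    (h : ∀ x : ℝ, 1 < x → ∑ k, x ^ f k = ∑ k, x ^ f' k) (z : ℤ) :
    (univ.filter fun k => f k = z).card = (univ.filter fun k => f' k = z).card := by
  classical
  set R : ℤ := ∑ k, |f k| + ∑ k, |f' k| + |z| with hR
  have hf : ∀ k, 0 ≤ f k + R := by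
    intro k
    have h1 : |f k| ≤ ∑ k, |f k| := Finset.single_le_sum (fun i _ => abs_nonneg (f i)) (mem_univ k)
    have h2 : 0 ≤ ∑ k, |f' k| := Finset.sum_nonneg fun i _ => abs_nonneg _
    have h3 := neg_abs_le (f k)
    have h4 := abs_nonneg z
    omega
  have hf' : ∀ k, 0 ≤ f' k + R := by
    intro k
    have h1 : |f' k| ≤ ∑ k, |f' k| :=
      Finset.single_le_sum (fun i _ => abs_nonneg (f' i)) (mem_univ k)
    have h2 : 0 ≤ ∑ k, |f k| := Finset.sum_nonneg fun i _ => abs_nonneg _
    have h3 := neg_abs_le (f' k)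
    have h4 := abs_nonneg z
    omega
  have hz : 0 ≤ z + R := by
    have h1 : 0 ≤ ∑ k, |f' k| := Finset.sum_nonneg fun i _ => abs_nonneg _
    have h2 : 0 ≤ ∑ k, |f k| := Finset.sum_nonneg fun i _ => abs_nonneg _
    have h3 := neg_abs_le z
    omega
  have key : ∀ {α : Type} [Fintype α] (g : α → ℤ), (∀ k, 0 ≤ g k + R) → ∀ x : ℝ, 1 < x →
      (∑ k, (X : ℝ[X]) ^ (g k + R).toNat).eval x = x ^ R * ∑ k, x ^ g k := by
    intro α _ g hg x hx
    have hx0 : x ≠ 0 := by positivity
    rw [eval_finsetSum, Finset.mul_sum]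
    refine Finset.sum_congr rfl fun k _ => ?_
    rw [eval_pow, eval_X, ← zpow_natCast, Int.toNat_of_nonneg (hg k), zpow_add₀ hx0, mul_comm]
  have hP : (∑ k, (X : ℝ[X]) ^ (f k + R).toNat) = ∑ k, (X : ℝ[X]) ^ (f' k + R).toNat := by
    apply Polynomial.eq_of_infinite_eval_eq
    apply Set.Infinite.mono (s := Set.Ioi (1 : ℝ)) _ (Set.Ioi_infinite 1)
    intro x hx
    show eval x _ = eval x _
    rw [key f hf x hx, key f' hf' x hx, h x hx]
  have hc := congrArg (fun P : ℝ[X] => P.coeff (z + R).toNat) hP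
  have hcoef : ∀ {α : Type} [Fintype α] (g : α → ℤ), (∀ k, 0 ≤ g k + R) →
      (∑ k, (X : ℝ[X]) ^ (g k + R).toNat).coeff (z + R).toNat =
        ((univ.filter fun k => g k = z).card : ℝ) := by
    intro α _ g hg
    rw [finsetSum_coeff, Finset.card_filter]
    push_cast
    refine Finset.sum_congr rfl fun k _ => ?_
    rw [coeff_X_pow]
    have := hg k
    by_cases hk : g k = z
    · rw [if_pos hk, if_pos (by rw [hk])]
    · rw [if_neg hk, if_neg (by omega)]
  have hc' := hc
  change (∑ k, (X : ℝ[X]) ^ (f k + R).toNat).coeff (z + R).toNat =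
    (∑ k, (X : ℝ[X]) ^ (f' k + R).toNat).coeff (z + R).toNat at hc'
  rw [hcoef f hf, hcoef f' hf'] at hc'
  exact_mod_cast hc'

/-- the value of `gp` at one -/
def M (a b : ℕ) : ℕ := (a + b) * (max a b - min a b)

lemma aeval_one_gp (T a b : ℕ) : aeval (1 : ℝ) (gp T a b) = (M a b : ℝ) := by
  unfold gp M
  simp [map_sum]

lemma M_pos {a b : ℕ} (h : a ≠ b) : 0 < M a b := by
  unfold M
  rcases lt_or_gt_of_ne h with h | h
  · rw [max_eq_right h.le, min_eq_left h.le]; exact Nat.mul_pos (by omega) (by omega)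
  · rw [max_eq_left h.le, min_eq_right h.le]; exact Nat.mul_pos (by omega) (by omega)

lemma M_comm (a b : ℕ) : M a b = M b a := by
  unfold M; rw [max_comm, min_comm, add_comm a b]

/-- the number of members -/
def NN (S : Finset ℕ) (s : ℕ) : ℕ := ∏ a ∈ S.erase s, ∏ b ∈ S.erase a, M a b

lemma aeval_one_Z (T : ℕ) (S : Finset ℕ) (s : ℕ) : aeval (1 : ℝ) (Z T S s) = (NN S s : ℝ) := by
  unfold Z NN
  simp only [map_prod, aeval_one_gp]
  push_cast
  rfl

/-- the nodes -/
def nodes (m r : ℕ) : Finset ℕ := insert 0 (insert 1 ((range r).image fun i => m * 2 ^ i))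

lemma nodes_card (m r : ℕ) (hm : 2 ≤ m) : (nodes m r).card = r + 2 := by
  unfold nodes
  have hp : ∀ i, 1 ≤ 2 ^ i := fun i => Nat.one_le_two_pow
  rw [Finset.card_insert_of_notMem, Finset.card_insert_of_notMem, Finset.card_image_of_injective,
    card_range]
  · intro i j hij
    have : 2 ^ i = 2 ^ j := Nat.eq_of_mul_eq_mul_left (by omega) hij
    exact Nat.pow_right_injective le_rfl this
  · simp only [mem_image, mem_range, not_exists, not_and]
    intro i _ h
    have := hp i
    nlinarith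
  · simp only [mem_insert, mem_image, mem_range, not_or, not_exists, not_and]
    refine ⟨by norm_num, fun i _ h => ?_⟩
    have := hp i
    nlinarith

lemma cost_ineq (m r L : ℕ) (hm : 2 ≤ m) (hL : L * 2 ^ r ≤ m) (s : ℕ) (hs : s ∈ nodes m r)
    (hs1 : s ≠ 1) : L * (s * NN (nodes m r) s) ≤ NN (nodes m r) 1 := by
  rcases Nat.eq_zero_or_pos s with h0 | hspos
  · subst h0; simp
  set S := nodes m r with hSdef
  have h0S : 0 ∈ S := by rw [hSdef]; unfold nodes; simp
  have h1S : 1 ∈ S := by rw [hSdef]; unfold nodes; simp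
  obtain ⟨i, hi, rfl⟩ : ∃ i, i < r ∧ m * 2 ^ i = s := by
    have : s ∈ insert 0 (insert 1 ((range r).image fun i => m * 2 ^ i)) := hs
    simp only [mem_insert, mem_image, mem_range] at this
    rcases this with h | h | ⟨i, h, h'⟩
    · omega
    · exact absurd h hs1
    · exact ⟨i, h, h'⟩
  set s := m * 2 ^ i with hsdef
  have hms : m ≤ s := by
    rw [hsdef]; exact Nat.le_mul_of_pos_right _ (by positivity)
  -- the two full products
  have e1 : (∏ a ∈ S, ∏ b ∈ S.erase a, M a b) = (∏ b ∈ S.erase s, M s b) * NN S s :=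
    (Finset.mul_prod_erase S (fun a => ∏ b ∈ S.erase a, M a b) hs).symm
  have e2 : (∏ a ∈ S, ∏ b ∈ S.erase a, M a b) = (∏ b ∈ S.erase 1, M 1 b) * NN S 1 :=
    (Finset.mul_prod_erase S (fun a => ∏ b ∈ S.erase a, M a b) h1S).symm
  set U := (S.erase 1).erase s with hU
  have hU' : (S.erase s).erase 1 = U := Finset.erase_right_comm
  have h0U : 0 ∈ U := by
    rw [hU, mem_erase, mem_erase]
    exact ⟨by omega, by omega, h0S⟩
  have f1 : (∏ b ∈ S.erase 1, M 1 b) = M 1 s * ∏ b ∈ U, M 1 b :=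
    (Finset.mul_prod_erase (S.erase 1) (fun b => M 1 b) (mem_erase.2 ⟨hs1, hs⟩)).symm
  have f2 : (∏ b ∈ S.erase s, M s b) = M s 1 * ∏ b ∈ U, M s b := by
    rw [← hU']
    exact (Finset.mul_prod_erase (S.erase s) (fun b => M s b) (mem_erase.2 ⟨hs1.symm, h1S⟩)).symm
  have g1 : (∏ b ∈ U, M 1 b) = M 1 0 * ∏ b ∈ U.erase 0, M 1 b :=
    (Finset.mul_prod_erase U (fun b => M 1 b) h0U).symm
  have g2 : (∏ b ∈ U, M s b) = M s 0 * ∏ b ∈ U.erase 0, M s b :=
    (Finset.mul_prod_erase U (fun b => M s b) h0U).symm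
  have m10 : M 1 0 = 1 := by unfold M; norm_num
  have ms0 : M s 0 = s * s := by unfold M; simp
  have hterm : ∀ b ∈ U.erase 0, M 1 b ≤ 2 * M s b := by
    intro b hb
    rw [hU, mem_erase, mem_erase, mem_erase] at hb
    obtain ⟨hb0, hbs, hb1, hbS⟩ := hb
    obtain ⟨j, hj, rfl⟩ : ∃ j, j < r ∧ m * 2 ^ j = b := by
      have : b ∈ insert 0 (insert 1 ((range r).image fun i => m * 2 ^ i)) := hbS
      simp only [mem_insert, mem_image, mem_range] at this
      rcases this with h | h | ⟨j, h, h'⟩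
      · exact absurd h hb0
      · exact absurd h hb1
      · exact ⟨j, h, h'⟩
    have hb2 : 2 ≤ m * 2 ^ j := le_trans hm (Nat.le_mul_of_pos_right _ (by positivity))
    have hM1 : M 1 (m * 2 ^ j) ≤ (m * 2 ^ j) * (m * 2 ^ j) := by
      unfold M
      rw [max_eq_right (by omega), min_eq_left (by omega)]
      obtain ⟨t, ht⟩ : ∃ t, m * 2 ^ j = t + 1 := ⟨m * 2 ^ j - 1, by omega⟩
      rw [ht, Nat.add_sub_cancel]
      nlinarith
    rcases lt_trichotomy i j with hij | hij | hij
    · have h2 : 2 * s ≤ m * 2 ^ j := by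
        obtain ⟨e, rfl⟩ := Nat.exists_eq_add_of_lt hij
        rw [hsdef, show i + e + 1 = i + 1 + e by ring, pow_add, pow_add]
        have : 1 ≤ 2 ^ e := Nat.one_le_two_pow
        nlinarith [Nat.zero_le (m * 2 ^ i)]
      refine hM1.trans ?_
      unfold M
      rw [max_eq_right (by omega), min_eq_left (by omega)]
      obtain ⟨t, ht⟩ := Nat.exists_eq_add_of_le h2
      rw [ht, show 2 * s + t - s = s + t by omega]
      nlinarith
    · exact absurd (by rw [hsdef, hij]) hbs
    · have h2 : 2 * (m * 2 ^ j) ≤ s := by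
        obtain ⟨e, rfl⟩ := Nat.exists_eq_add_of_lt hij
        rw [hsdef, show j + e + 1 = j + 1 + e by ring, pow_add, pow_add]
        have : 1 ≤ 2 ^ e := Nat.one_le_two_pow
        nlinarith [Nat.zero_le (m * 2 ^ j)]
      refine hM1.trans ?_
      unfold M
      rw [max_eq_left (by omega), min_eq_right (by omega)]
      obtain ⟨t, ht⟩ := Nat.exists_eq_add_of_le h2
      rw [ht, show 2 * (m * 2 ^ j) + t - m * 2 ^ j = m * 2 ^ j + t by omega]
      nlinarith
  have hprod : (∏ b ∈ U.erase 0, M 1 b) ≤ 2 ^ r * ∏ b ∈ U.erase 0, M s b := by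
    calc (∏ b ∈ U.erase 0, M 1 b) ≤ ∏ b ∈ U.erase 0, (2 * M s b) :=
          Finset.prod_le_prod' hterm
      _ = 2 ^ (U.erase 0).card * ∏ b ∈ U.erase 0, M s b := by
          rw [Finset.prod_mul_distrib, Finset.prod_const]
      _ ≤ _ := by
          apply Nat.mul_le_mul_right
          apply Nat.pow_le_pow_right (by norm_num)
          have h1 := nodes_card m r hm
          rw [← hSdef] at h1
          rw [Finset.card_erase_of_mem h0U, hU, Finset.card_erase_of_mem (mem_erase.2 ⟨hs1, hs⟩),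
            Finset.card_erase_of_mem h1S, h1]
          omega
  -- combine
  have hMpos : 0 < M 1 s := M_pos hs1.symm
  have hQpos : 0 < ∏ b ∈ U.erase 0, M s b := by
    refine Finset.prod_pos fun b hb => M_pos ?_
    rw [hU, mem_erase, mem_erase] at hb
    exact hb.2.1.symm
  set Q := ∏ b ∈ U.erase 0, M s b with hQ
  set P := ∏ b ∈ U.erase 0, M 1 b with hP
  have hE : M 1 s * (s * s * Q) * NN S s = M 1 s * P * NN S 1 := by
    have := e1.symm.trans e2
    rw [f1, f2, g1, g2, m10, ms0, one_mul, M_comm s 1] at this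
    exact this
  have hE2 : (s * s * Q) * NN S s = P * NN S 1 := by
    have : M 1 s * ((s * s * Q) * NN S s) = M 1 s * (P * NN S 1) := by
      calc M 1 s * ((s * s * Q) * NN S s) = M 1 s * (s * s * Q) * NN S s := by ring
        _ = M 1 s * P * NN S 1 := hE
        _ = M 1 s * (P * NN S 1) := by ring
    exact Nat.eq_of_mul_eq_mul_left hMpos this
  -- L s N_s * (s Q) ≤ N_1 (s Q)
  have hfin : (s * Q) * (L * (s * NN S s)) ≤ (s * Q) * NN S 1 := by
    calc (s * Q) * (L * (s * NN S s)) = L * ((s * s * Q) * NN S s) := by ring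
      _ = L * (P * NN S 1) := by rw [hE2]
      _ ≤ L * ((2 ^ r * Q) * NN S 1) := by gcongr
      _ = (L * 2 ^ r) * Q * NN S 1 := by ring
      _ ≤ s * Q * NN S 1 := by
          have : L * 2 ^ r ≤ s := hL.trans hms
          gcongr
  exact Nat.le_of_mul_le_mul_left hfin (Nat.mul_pos hspos hQpos)

/-- The families: an expensive one and a cheap one that are equidistributed for all small `lam`. -/
theorem fam (r B : ℕ) : ∃ (κ κ' : Type) (_ : Fintype κ) (_ : Fintype κ') (b s : κ → ℤ)
    (b' s' : κ' → ℤ),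
    (∀ lam : ℤ, |lam| ≤ r → ∀ z : ℤ, (univ.filter fun k => b k + lam * s k = z).card =
      (univ.filter fun k => b' k + lam * s' k = z).card) ∧
    B * ∑ k, |s' k| ≤ ∑ k, |s k| ∧ ∑ k, |s' k| < ∑ k, |s k| := by
  classical
  set L := (B + 1) * (r + 2) with hLdef
  set m := L * 2 ^ r + 2 with hmdef
  have hm : 2 ≤ m := by omega
  have hLm : L * 2 ^ r ≤ m := by omega
  set S := nodes m r with hSdef
  have hcard : S.card = r + 2 := nodes_card m r hm
  have h1S : 1 ∈ S := by rw [hSdef]; unfold nodes; simp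
  set T := ∑ s ∈ S, s with hT
  have hST : ∀ s ∈ S, s ≤ T := fun s hs => Finset.single_le_sum (fun i _ => Nat.zero_le i) hs
  choose N f hf using fun s => exists_fam (Z T S s)
  have hN : ∀ s, N s = NN S s := by
    intro s
    have h1 := hf s 1
    rw [aeval_one_Z] at h1
    simp at h1
    exact_mod_cast h1
  -- the index types
  let Ty : ℤ → Type := fun e => (Σ s : {s : ℕ // s ∈ S ∧ eps S s = e}, Fin (N s.1) × Bool)
  let bb : ∀ e, Ty e → ℤ := fun e k => (f k.1.1 k.2.1 : ℤ)
  let ss : ∀ e, Ty e → ℤ := fun e k => if k.2.2 then (k.1.1 : ℤ) else -(k.1.1 : ℤ)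
  letI : ∀ e, Fintype {s : ℕ // s ∈ S ∧ eps S s = e} := fun e =>
    Fintype.subtype (S.filter fun s => eps S s = e) (by simp)
  letI : ∀ e, Fintype (Ty e) := fun e => inferInstanceAs
    (Fintype (Σ s : {s : ℕ // s ∈ S ∧ eps S s = e}, Fin (N s.1) × Bool))
  have hsub : ∀ (e : ℤ) (g : ℕ → ℝ), ∑ s : {s : ℕ // s ∈ S ∧ eps S s = e}, g s.1 =
      ∑ s ∈ S.filter (fun s => eps S s = e), g s := by
    intro e g
    symm
    apply Finset.sum_subtype
    intro s
    simp
  have hsum : ∀ (e : ℤ) (g : ℕ → ℤ → ℤ → ℝ), ∑ k : Ty e, g k.1.1 (bb e k) (ss e k) =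
      ∑ s ∈ S.filter (fun s => eps S s = e),
        ∑ i : Fin (N s), (g s (f s i) s + g s (f s i) (-s)) := by
    intro e g
    rw [← hsub e fun s => ∑ i : Fin (N s), (g s (f s i) s + g s (f s i) (-s))]
    refine (Fintype.sum_sigma (fun k : (Σ s : {s : ℕ // s ∈ S ∧ eps S s = e},
      Fin (N s.1) × Bool) => g k.1.1 (bb e k) (ss e k))).trans ?_
    refine Finset.sum_congr rfl fun s _ => ?_
    rw [Fintype.sum_prod_type]
    refine Finset.sum_congr rfl fun i _ => ?_
    rw [Fintype.sum_bool]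
    simp [bb, ss]
  have hgen : ∀ (e : ℤ) (x : ℝ), 1 < x → ∀ lam : ℤ, ∑ k : Ty e, x ^ (bb e k + lam * ss e k) =
      ∑ s ∈ S.filter (fun s => eps S s = e),
        aeval x (Z T S s) * (x ^ (lam.natAbs * s) + x⁻¹ ^ (lam.natAbs * s)) := by
    intro e x hx lam
    have hx0 : x ≠ 0 := by positivity
    rw [hsum e fun _ b s => x ^ (b + lam * s)]
    refine Finset.sum_congr rfl fun s _ => ?_
    rw [← hf s x, Finset.sum_mul]
    refine Finset.sum_congr rfl fun i _ => ?_
    have e1 : x ^ ((f s i : ℤ) + lam * s) = x ^ f s i * x ^ (lam * s) := by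
      rw [zpow_add₀ hx0, zpow_natCast]
    have e2 : x ^ ((f s i : ℤ) + lam * -(s : ℤ)) = x ^ f s i * x ^ (-(lam * s)) := by
      rw [zpow_add₀ hx0, zpow_natCast, mul_neg]
    rw [e1, e2, ← mul_add]
    congr 1
    obtain ⟨n, rfl | rfl⟩ := Int.eq_nat_or_neg lam
    · have h1 : (n : ℤ) * s = ((n * s : ℕ) : ℤ) := by push_cast; ring
      rw [h1, Int.natAbs_natCast, zpow_natCast, zpow_neg, zpow_natCast, inv_pow]
    · have h1 : -(n : ℤ) * s = -((n * s : ℕ) : ℤ) := by push_cast; ring
      rw [h1, Int.natAbs_neg, Int.natAbs_natCast, neg_neg, zpow_natCast, zpow_neg, zpow_natCast,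
        inv_pow, add_comm]
  have hcost : ∀ e : ℤ, ((∑ k : Ty e, |ss e k| : ℤ) : ℝ) =
      ∑ s ∈ S.filter (fun s => eps S s = e), 2 * ((s : ℝ) * NN S s) := by
    intro e
    push_cast
    rw [hsum e fun _ _ s => |(s : ℝ)|]
    refine Finset.sum_congr rfl fun s _ => ?_
    rw [← hN s]
    simp
    ring
  -- signs
  have heps : ∀ s, eps S s = 1 ∨ eps S s = -1 := fun s => by
    have h := eps_sq S s
    rcases Int.isUnit_iff.1 (IsUnit.of_mul_eq_one _ h) with h | h
    · exact Or.inl h
    · exact Or.inr h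
  set e1 := eps S 1 with he1
  have he1' : e1 = 1 ∨ e1 = -1 := heps 1
  refine ⟨Ty e1, Ty (-e1), inferInstance, inferInstance, bb e1, ss e1, bb (-e1), ss (-e1), ?_, ?_⟩
  · intro lam hlam z
    apply eqd
    intro x hx
    rw [hgen e1 x hx lam, hgen (-e1) x hx lam]
    have hlr : lam.natAbs ≤ r := by
      rw [Int.abs_eq_natAbs] at hlam
      exact_mod_cast hlam
    have hid := ident T S hST lam.natAbs (by rw [hcard]; omega) hx
    have hsplit : ∑ s ∈ S, (eps S s : ℝ) * (aeval x (Z T S s) *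
        (x ^ (lam.natAbs * s) + x⁻¹ ^ (lam.natAbs * s))) =
        (e1 : ℝ) * ∑ s ∈ S.filter (fun s => eps S s = e1),
          aeval x (Z T S s) * (x ^ (lam.natAbs * s) + x⁻¹ ^ (lam.natAbs * s)) +
        (-e1 : ℝ) * ∑ s ∈ S.filter (fun s => eps S s = -e1),
          aeval x (Z T S s) * (x ^ (lam.natAbs * s) + x⁻¹ ^ (lam.natAbs * s)) := by
      rw [← Finset.sum_filter_add_sum_filter_not S (fun s => eps S s = e1)]
      congr 1
      · rw [Finset.mul_sum]
        refine Finset.sum_congr rfl fun s hs => ?_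
        rw [(Finset.mem_filter.1 hs).2]
      · rw [Finset.mul_sum]
        have : S.filter (fun s => ¬ eps S s = e1) = S.filter (fun s => eps S s = -e1) := by
          apply Finset.filter_congr
          intro s _
          rcases heps s with h | h <;> rcases he1' with h' | h' <;> rw [h, h'] <;> norm_num
        rw [this]
        refine Finset.sum_congr rfl fun s hs => ?_
        rw [(Finset.mem_filter.1 hs).2]
        push_cast
        ring
    rw [hsplit] at hid
    have hne : (e1 : ℝ) ≠ 0 := by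
      rcases he1' with h | h <;> rw [h] <;> norm_num
    have : (e1 : ℝ) * (∑ s ∈ S.filter (fun s => eps S s = e1),
          aeval x (Z T S s) * (x ^ (lam.natAbs * s) + x⁻¹ ^ (lam.natAbs * s)) -
        ∑ s ∈ S.filter (fun s => eps S s = -e1),
          aeval x (Z T S s) * (x ^ (lam.natAbs * s) + x⁻¹ ^ (lam.natAbs * s))) = 0 := by
      linear_combination hid
    rcases mul_eq_zero.1 this with h | h
    · exact absurd h hne
    · linarith
  · -- costs
    have hN1 : 0 < NN S 1 := by
      unfold NN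
      exact Finset.prod_pos fun a _ => Finset.prod_pos fun b hb =>
        M_pos (Finset.ne_of_mem_erase hb).symm
    have hQ : 2 * (NN S 1 : ℝ) ≤ ((∑ k : Ty e1, |ss e1 k| : ℤ) : ℝ) := by
      rw [hcost e1]
      have h1 : (1 : ℕ) ∈ S.filter (fun s => eps S s = e1) := Finset.mem_filter.2 ⟨h1S, he1.symm⟩
      have := Finset.single_le_sum (f := fun s : ℕ => 2 * ((s : ℝ) * NN S s))
        (fun i _ => by positivity) h1
      simpa using this
    have hP : ((B : ℝ) + 1) * ((∑ k : Ty (-e1), |ss (-e1) k| : ℤ) : ℝ) < 2 * (NN S 1 : ℝ) := by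
      rw [hcost (-e1)]
      have hle : ∀ s ∈ S.filter (fun s => eps S s = -e1),
          (L : ℝ) * (2 * ((s : ℝ) * NN S s)) ≤ 2 * NN S 1 := by
        intro s hs
        have hs' := Finset.mem_filter.1 hs
        have hs1 : s ≠ 1 := by
          rintro rfl
          have h2 : e1 = -e1 := hs'.2
          rcases he1' with h | h <;> omega
        have := cost_ineq m r L hm hLm s hs'.1 hs1
        have h3 : (L : ℝ) * ((s : ℝ) * NN S s) ≤ NN S 1 := by exact_mod_cast this
        linarith
      have hsumle := Finset.sum_le_sum hle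
      rw [← Finset.mul_sum, Finset.sum_const, nsmul_eq_mul] at hsumle
      have hcardle : ((S.filter (fun s => eps S s = -e1)).card : ℝ) ≤ r + 1 := by
        have h4 : (S.filter (fun s => eps S s = -e1)) ⊆ S.erase 1 := by
          intro s hs
          have hs' := Finset.mem_filter.1 hs
          rw [Finset.mem_erase]
          refine ⟨?_, hs'.1⟩
          rintro rfl
          have h2 : e1 = -e1 := hs'.2
          rcases he1' with h | h <;> omega
        have h5 := Finset.card_le_card h4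
        rw [Finset.card_erase_of_mem h1S, hcard] at h5
        exact_mod_cast (by omega : (S.filter (fun s => eps S s = -e1)).card ≤ r + 1)
      set W := ∑ s ∈ S.filter (fun s => eps S s = -e1), 2 * ((s : ℝ) * NN S s) with hW
      have hN1' : (0 : ℝ) < NN S 1 := by exact_mod_cast hN1
      have hLr : (L : ℝ) = ((B : ℝ) + 1) * (r + 2) := by rw [hLdef]; push_cast; ring
      rw [hLr] at hsumle
      have h6 : ((B : ℝ) + 1) * W * (r + 2) ≤ (r + 1) * (2 * NN S 1) := by
        calc ((B : ℝ) + 1) * W * (r + 2) = ((B : ℝ) + 1) * (r + 2) * W := by ring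
          _ ≤ _ := hsumle
          _ ≤ _ := by gcongr
      have h7 : (r + 1 : ℝ) * (2 * NN S 1) < (r + 2) * (2 * NN S 1) := by nlinarith
      have h8 : ((B : ℝ) + 1) * W * (r + 2) < 2 * NN S 1 * (r + 2) := by linarith
      exact lt_of_mul_lt_mul_right h8 (by positivity)
    have hPn : (0 : ℝ) ≤ ((∑ k : Ty (-e1), |ss (-e1) k| : ℤ) : ℝ) := by
      exact_mod_cast Finset.sum_nonneg fun k _ => abs_nonneg _
    have hBn : (0 : ℝ) ≤ B := Nat.cast_nonneg _
    constructor
    · have : (B : ℝ) * ((∑ k : Ty (-e1), |ss (-e1) k| : ℤ) : ℝ) ≤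
          ((∑ k : Ty e1, |ss e1 k| : ℤ) : ℝ) := by linarith
      exact_mod_cast this
    · have : ((∑ k : Ty (-e1), |ss (-e1) k| : ℤ) : ℝ) <
          ((∑ k : Ty e1, |ss e1 k| : ℤ) : ℝ) := by
        have : 0 ≤ (B : ℝ) * ((∑ k : Ty (-e1), |ss (-e1) k| : ℤ) : ℝ) := mul_nonneg hBn hPn
        linarith
      exact_mod_cast this

end Pool.Agent.H228R6
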