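import Mathlib

set_option autoImplicit false

namespace Pool.Agent.H228R6

open Finset Polynomial

lemma exists_K_aux (n : ℕ) :
    (∃ K : ℝ[X], K.natDegree ≤ n ∧ ∀ y z : ℝ, y * z = 1 → K.eval (y + z - 2) = y ^ n + z ^ n) ∧
    (∃ K : ℝ[X], K.natDegree ≤ n + 1 ∧
      ∀ y z : ℝ, y * z = 1 → K.eval (y + z - 2) = y ^ (n + 1) + z ^ (n + 1)) := by
  induction n with
  | zero =>
    refine ⟨⟨C 2, by simp, fun y z _ => by simp; norm_num⟩, ⟨X + C 2, ?_, fun y z _ => by simp⟩⟩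
    exact (natDegree_X_add_C _).le
  | succ n ih =>
    obtain ⟨⟨K0, h0, e0⟩, ⟨K1, h1, e1⟩⟩ := ih
    refine ⟨⟨K1, h1, e1⟩, ⟨(X + C 2) * K1 - K0, ?_, fun y z hyz => ?_⟩⟩
    · refine (natDegree_sub_le _ _).trans (max_le ?_ (by omega))
      refine natDegree_mul_le.trans ?_
      rw [natDegree_X_add_C]; omega
    · rw [eval_sub, eval_mul, e1 y z hyz, e0 y z hyz]
      simp only [eval_add, eval_X, eval_C]
      linear_combination (y ^ n + z ^ n) * hyz

lemma exists_K (n : ℕ) : ∃ K : ℝ[X], K.natDegree ≤ n ∧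
    ∀ y z : ℝ, y * z = 1 → K.eval (y + z - 2) = y ^ n + z ^ n := (exists_K_aux n).1

/-- the node -/
noncomputable def A (x : ℝ) (s : ℕ) : ℝ := x ^ s + x⁻¹ ^ s - 2

/-- the difference polynomial -/
noncomputable def gp (T a b : ℕ) : ℕ[X] :=
  X ^ (T - max a b) * ((∑ i ∈ range (a + b), X ^ i) * (∑ i ∈ range (max a b - min a b), X ^ i))

lemma gp_comm (T a b : ℕ) : gp T a b = gp T b a := by
  unfold gp
  rw [max_comm, min_comm, add_comm a b]

lemma A_sub {x : ℝ} (hx : 1 < x) (T b e : ℕ) (hT : b + e ≤ T) :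
    A x (b + e) - A x b = x⁻¹ ^ T * (x - 1) ^ 2 * aeval x (gp T (b + e) b) := by
  obtain ⟨f, rfl⟩ := Nat.exists_eq_add_of_le hT
  have hx0 : x ≠ 0 := by positivity
  have hg : ∀ n : ℕ, (∑ i ∈ range n, x ^ i) * (x - 1) = x ^ n - 1 := fun n => geom_sum_mul x n
  have e1 : aeval x (gp (b + e + f) (b + e) b) * (x - 1) ^ 2 =
      x ^ f * ((x ^ (b + e + b) - 1) * (x ^ e - 1)) := by
    unfold gp
    have m1 : max (b + e) b = b + e := max_eq_left (by omega)
    have m2 : min (b + e) b = b := min_eq_right (by omega)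
    rw [m1, m2]
    have m3 : b + e + f - (b + e) = f := by omega
    have m4 : b + e - b = e := by omega
    rw [m3, m4]
    simp only [map_mul, map_pow, aeval_X, map_sum]
    rw [← hg (b + e + b), ← hg e]
    ring
  rw [mul_assoc, mul_comm ((x - 1) ^ 2), e1]
  unfold A
  simp only [inv_pow]
  have hp : x ^ b ≠ 0 := pow_ne_zero _ hx0
  have hq : x ^ e ≠ 0 := pow_ne_zero _ hx0
  have hu : x ^ f ≠ 0 := pow_ne_zero _ hx0
  simp only [pow_add]
  field_simp
  ring

/-- sign -/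
def sg (a b : ℕ) : ℤ := if b < a then 1 else -1

lemma A_sub_sg {x : ℝ} (hx : 1 < x) {T a b : ℕ} (hab : a ≠ b) (ha : a ≤ T) (hb : b ≤ T) :
    A x a - A x b = (sg a b : ℝ) * ((x⁻¹ ^ T * (x - 1) ^ 2) * aeval x (gp T a b)) := by
  unfold sg
  rcases lt_or_gt_of_ne hab with h | h
  · rw [if_neg (by omega)]
    obtain ⟨e, rfl⟩ := Nat.exists_eq_add_of_le h.le
    have := A_sub hx T a e hb
    rw [gp_comm T a (a + e)]
    push_cast
    linarith
  · rw [if_pos h]
    obtain ⟨e, rfl⟩ := Nat.exists_eq_add_of_le h.le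
    have := A_sub hx T b e ha
    push_cast
    linarith

lemma gp_pos {x : ℝ} (hx : 0 < x) {T a b : ℕ} (hab : a ≠ b) : 0 < aeval x (gp T a b) := by
  unfold gp
  simp only [map_mul, map_pow, aeval_X, map_sum]
  refine mul_pos (pow_pos hx _) (mul_pos ?_ ?_)
  · refine Finset.sum_pos (fun i _ => pow_pos hx _) ?_
    rw [nonempty_range_iff]; omega
  · refine Finset.sum_pos (fun i _ => pow_pos hx _) ?_
    rw [nonempty_range_iff]
    rcases lt_or_gt_of_ne hab with h | h
    · rw [max_eq_right h.le, min_eq_left h.le]; omega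
    · rw [max_eq_left h.le, min_eq_right h.le]; omega

/-- the multiplicity polynomial -/
noncomputable def Z (T : ℕ) (S : Finset ℕ) (s : ℕ) : ℕ[X] :=
  ∏ a ∈ S.erase s, ∏ b ∈ S.erase a, gp T a b

/-- the sign of a node -/
def eps (S : Finset ℕ) (s : ℕ) : ℤ := ∏ b ∈ S.erase s, sg s b

lemma sg_sq (a b : ℕ) : sg a b * sg a b = 1 := by unfold sg; split_ifs <;> norm_num

lemma eps_sq (S : Finset ℕ) (s : ℕ) : eps S s * eps S s = 1 := by
  unfold eps
  rw [← Finset.prod_mul_distrib]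
  exact Finset.prod_eq_one fun b _ => sg_sq s b

theorem ident (T : ℕ) (S : Finset ℕ) (hS : ∀ s ∈ S, s ≤ T) (n : ℕ) (hn : n + 1 < S.card)
    {x : ℝ} (hx : 1 < x) :
    ∑ s ∈ S, (eps S s : ℝ) * (aeval x (Z T S s) * (x ^ (n * s) + x⁻¹ ^ (n * s))) = 0 := by
  obtain ⟨K, hK, eK⟩ := exists_K n
  have hx0 : (0 : ℝ) < x := by linarith
  have hc : 0 < x⁻¹ ^ T * (x - 1) ^ 2 := mul_pos (by positivity) (by
    have : 0 < x - 1 := by linarith
    positivity)
  have hne : ∀ a ∈ S, ∀ b ∈ S, a ≠ b → A x a ≠ A x b := by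
    intro a ha b hb hab h
    have h1 := A_sub_sg hx hab (hS a ha) (hS b hb)
    rw [h, sub_self] at h1
    have h2 : (sg a b : ℝ) ≠ 0 := by
      intro h3
      have h4 := sg_sq a b
      have h5 : sg a b = 0 := by exact_mod_cast h3
      rw [h5] at h4; norm_num at h4
    exact (mul_ne_zero h2 (mul_pos hc (gp_pos hx0 hab)).ne') h1.symm
  have hinj : Set.InjOn (A x) S := fun a ha b hb h => by
    by_contra hab
    exact hne a ha b hb hab h
  have hdeg : K.degree < S.card := by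
    refine lt_of_le_of_lt degree_le_natDegree ?_
    exact_mod_cast (by omega : K.natDegree < S.card)
  have hL := Lagrange.coeff_eq_sum hinj hdeg
  rw [coeff_eq_zero_of_natDegree_lt (by omega)] at hL
  set c := x⁻¹ ^ T * (x - 1) ^ 2 with hcdef
  set Pi := ∏ a ∈ S, ∏ b ∈ S.erase a, aeval x (gp T a b) with hPi
  have hpos : ∀ a : ℕ, 0 < ∏ b ∈ S.erase a, aeval x (gp T a b) := fun a =>
    Finset.prod_pos fun b hb => gp_pos hx0 (Finset.ne_of_mem_erase hb).symm
  have hPipos : 0 < Pi := Finset.prod_pos fun a _ => hpos a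
  have hterm : ∀ s ∈ S, (eps S s : ℝ) * (aeval x (Z T S s) * (x ^ (n * s) + x⁻¹ ^ (n * s))) =
      (c ^ (S.card - 1) * Pi) * (K.eval (A x s) / ∏ j ∈ S.erase s, (A x s - A x j)) := by
    intro s hs
    have h1 : ∏ j ∈ S.erase s, (A x s - A x j) =
        (eps S s : ℝ) * (c ^ (S.card - 1) * ∏ b ∈ S.erase s, aeval x (gp T s b)) := by
      rw [Finset.prod_congr rfl fun j hj => A_sub_sg hx (Finset.ne_of_mem_erase hj).symm (hS s hs)
        (hS j (Finset.mem_of_mem_erase hj))]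
      rw [Finset.prod_mul_distrib, Finset.prod_mul_distrib, Finset.prod_const,
        Finset.card_erase_of_mem hs]
      unfold eps
      push_cast
      rfl
    have h2 : Pi = (∏ b ∈ S.erase s, aeval x (gp T s b)) * aeval x (Z T S s) := by
      rw [hPi, ← Finset.mul_prod_erase S _ hs]
      congr 1
      unfold Z
      simp only [map_prod]
    have h3 : K.eval (A x s) = x ^ (n * s) + x⁻¹ ^ (n * s) := by
      have := eK (x ^ s) (x⁻¹ ^ s) (by rw [← mul_pow, mul_inv_cancel₀ hx0.ne', one_pow])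
      unfold A
      rw [this, ← pow_mul, ← pow_mul, mul_comm s n]
    have h4 : (eps S s : ℝ) * (eps S s : ℝ) = 1 := by exact_mod_cast eps_sq S s
    have h5 : (eps S s : ℝ) ≠ 0 := fun h => by rw [h] at h4; norm_num at h4
    have h6 := (hpos s).ne'
    have h7 : c ^ (S.card - 1) ≠ 0 := pow_ne_zero _ hc.ne'
    rw [h1, h2, h3]
    field_simp
    rw [pow_two, h4, one_mul]
  rw [Finset.sum_congr rfl hterm, ← Finset.mul_sum, ← hL, mul_zero]

end Pool.Agent.H228R6
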