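import Pool.Agent.H228R6.Fam
import Pool.Agent.H228R4.Blocks

set_option autoImplicit false

namespace Pool.Agent.H228R6

open Finset Pool.Agent.H228R4

lemma map_eq_of_sum {α β : Type} [Fintype α] [Fintype β] (f : α → ℤ) (f' : β → ℤ)
    (h : ∀ g : ℤ → ℕ, ∑ x, g (f x) = ∑ y, g (f' y)) :
    Multiset.map f univ.val = Multiset.map f' univ.val := by
  classical
  refine Multiset.ext.2 fun z => ?_
  have key : ∀ {γ : Type} [Fintype γ] (p : γ → ℤ), Multiset.count z (Multiset.map p univ.val) =
      ∑ x, (if p x = z then 1 else 0) := by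
    intro γ _ p
    rw [Multiset.count_map, ← Finset.card_filter, Finset.card_def, Finset.filter_val]
    congr 1
    apply Multiset.filter_congr
    intro x _
    exact eq_comm
  rw [key, key]
  exact h fun w => if w = z then 1 else 0

lemma sum_of_counts {α β : Type} [Fintype α] [Fintype β] (f : α → ℤ) (f' : β → ℤ)
    (h : ∀ z : ℤ, (univ.filter fun k => f k = z).card = (univ.filter fun k => f' k = z).card)
    (g : ℤ → ℕ) : ∑ x, g (f x) = ∑ y, g (f' y) := by
  classical
  have hM : Multiset.map f univ.val = Multiset.map f' univ.val := by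
    refine Multiset.ext.2 fun z => ?_
    have key : ∀ {γ : Type} [Fintype γ] (p : γ → ℤ), Multiset.count z (Multiset.map p univ.val) =
        (univ.filter fun x => p x = z).card := by
      intro γ _ p
      rw [Multiset.count_map, Finset.card_def, Finset.filter_val]
      congr 1
      apply Multiset.filter_congr
      intro x _
      exact eq_comm
    rw [key, key, h z]
  have e1 : ∀ {γ : Type} [Fintype γ] (p : γ → ℤ), ∑ x, g (p x) =
      (Multiset.map g (Multiset.map p univ.val)).sum := by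
    intro γ _ p
    rw [Multiset.map_map]
    rfl
  rw [e1, e1, hM]

/-- coding of letters -/
def enc (R : ℕ) (z : ℤ) : Fin (2 * R + 1) :=
  if h : (z + R).toNat < 2 * R + 1 then ⟨(z + R).toNat, h⟩ else ⟨0, by omega⟩

def dec (R : ℕ) (a : Fin (2 * R + 1)) : ℤ := (a : ℤ) - R

lemma dec_enc {R : ℕ} {z : ℤ} (h : |z| ≤ R) : dec R (enc R z) = z := by
  have h1 := abs_le.1 h
  unfold dec enc
  rw [dif_pos (by omega)]
  simp only
  omega

/-- the expansion of a word -/
def expd {n l R : ℕ} (T : Fin n → Fin (l + 1) ⊕ Fin (2 * R + 1)) {Y : Type}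
    (e : Y ≃ Fin (l + 1)) (v : Y → ℤ) : Fin n → ℤ :=
  fun i => Sum.elim (fun j => v (e.symm j)) (fun a => dec R a) (T i)

lemma expd_eq {n l R : ℕ} (T : Fin n → Fin (l + 1) ⊕ Fin (2 * R + 1)) {Y : Type}
    (e : Y ≃ Fin (l + 1)) (v : Y → ℤ) (hv : ∀ y, |v y| ≤ R) :
    (fun i => dec R (ev T (fun j => enc R (v (e.symm j))) i)) = expd T e v := by
  funext i
  unfold expd ev
  rcases T i with j | a
  · simp only [Sum.elim_inl]
    exact dec_enc (hv _)
  · simp only [Sum.elim_inr]
    rfl

lemma expd_inv {n l R k : ℕ} (T : Fin n → Fin (l + 1) ⊕ Fin (2 * R + 1))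
    (c : (Fin n → ℤ) → Fin k)
    (hT : ∀ x y : Fin (l + 1) → Fin (2 * R + 1), ms x = ms y →
      c (fun i => dec R (ev T x i)) = c (fun i => dec R (ev T y i)))
    {Y Y' : Type} [Fintype Y] [Fintype Y'] (e : Y ≃ Fin (l + 1)) (e' : Y' ≃ Fin (l + 1))
    (v : Y → ℤ) (v' : Y' → ℤ) (hv : ∀ y, |v y| ≤ R) (hv' : ∀ y, |v' y| ≤ R)
    (h : ∀ g : ℤ → ℕ, ∑ x, g (v x) = ∑ y, g (v' y)) :
    c (expd T e v) = c (expd T e' v') := by
  rw [← expd_eq T e v hv, ← expd_eq T e' v' hv']
  apply hT
  have hm := map_eq_of_sum v v' h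
  have key : ∀ {γ : Type} [Fintype γ] (ee : γ ≃ Fin (l + 1)) (p : γ → ℤ),
      ms (fun j => enc R (p (ee.symm j))) = Multiset.map (enc R) (Multiset.map p univ.val) := by
    intro γ _ ee p
    unfold ms
    rw [← Multiset.map_univ_val_equiv ee.symm, Multiset.map_map, Multiset.map_map]
    rfl
  rw [key e v, key e' v', hm]

lemma sum_expd {n l R d : ℕ} (T : Fin n → Fin (l + 1) ⊕ Fin (2 * R + 1))
    (hT : ∀ p, cnt T p = d) (w : Fin (l + 1) → ℤ) :
    ∑ i : Fin n, |Sum.elim w (fun _ => (0 : ℤ)) (T i)| = d * ∑ j, |w j| := by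
  have h1 : ∀ i : Fin n, |Sum.elim w (fun _ => (0 : ℤ)) (T i)| =
      ∑ j, (ind (T i) j : ℤ) * |w j| := by
    intro i
    rcases hTi : T i with j | a
    · rw [Finset.sum_eq_single j]
      · rw [ind_inl]; simp
      · intro b _ hb
        rw [ind_inl_ne hb.symm]; simp
      · intro h; exact absurd (mem_univ j) h
    · simp [ind_inr]
  rw [Finset.sum_congr rfl fun i _ => h1 i, Finset.sum_comm, Finset.mul_sum]
  refine Finset.sum_congr rfl fun j _ => ?_
  rw [← Finset.sum_mul, ← hT j]
  unfold cnt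
  push_cast
  rfl

/-- the parameters -/
def Lam (t r : ℕ) : Type := {l : Fin t → ℤ // ∑ i, |l i| ≤ r}

instance (t r : ℕ) : Finite (Lam t r) := by
  have : Finite (Fin t → Set.Icc (-(r : ℤ)) r) := inferInstance
  refine Finite.of_injective (fun (l : Lam t r) (i : Fin t) =>
    (⟨l.1 i, ?_⟩ : Set.Icc (-(r : ℤ)) r)) ?_
  · have h1 : |l.1 i| ≤ ∑ i, |l.1 i| :=
      Finset.single_le_sum (fun i _ => abs_nonneg (l.1 i)) (mem_univ i)
    exact abs_le.1 (h1.trans l.2)
  · intro l l' h
    apply Subtype.ext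
    funext i
    have := congrFun h i
    exact congrArg Subtype.val this

lemma Lam.abs_le {t r : ℕ} (l : Lam t r) (i : Fin t) : |l.1 i| ≤ r :=
  (Finset.single_le_sum (f := fun i => |l.1 i|) (fun i _ => abs_nonneg (l.1 i))
    (mem_univ i)).trans l.2

theorem main (r t k : ℕ) : ∃ d n : ℕ, 0 < d ∧
    ∀ c : (Fin n → ℤ) → Fin k,
      ∃ u : Fin t → Fin n → ℤ,
        (∀ i i' : Fin t, i ≠ i' → ∀ j : Fin n, u i j = 0 ∨ u i' j = 0) ∧
        (∀ i : Fin t, ∑ j : Fin n, |u i j| = (d : ℤ)) ∧
        ∃ x : Fin n → ℤ, ∀ l : Fin t → ℤ, ∑ i : Fin t, |l i| ≤ (r : ℤ) →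
          c (x + ∑ i : Fin t, l i • u i) = c x := by
  classical
  obtain ⟨ι, hι, hHJ⟩ := Combinatorics.Line.exists_mono_in_high_dimension (Lam t r) (Fin k)
  obtain ⟨κ, κ', hκ, hκ', b, s, b', s', hfam, hB, hlt⟩ := fam r (Fintype.card ι)
  have hq0 : 0 ≤ ∑ k, |s k| := Finset.sum_nonneg fun i _ => abs_nonneg _
  have hp0 : 0 ≤ ∑ k, |s' k| := Finset.sum_nonneg fun i _ => abs_nonneg _
  obtain ⟨q, hq⟩ := Int.eq_ofNat_of_zero_le hq0
  obtain ⟨p, hp⟩ := Int.eq_ofNat_of_zero_le hp0
  rw [hq, hp] at hB hlt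
  have hB' : Fintype.card ι * p ≤ q := by exact_mod_cast hB
  have hlt' : p < q := by exact_mod_cast hlt
  obtain ⟨N, hN⟩ : ∃ N, q = p + N := Nat.exists_eq_add_of_lt hlt' |>.imp' (· + 1) (by
    intro a h; omega)
  have hNpos : 0 < N := by omega
  -- the range of letters
  set RZ : ℤ := ∑ k, (|b k| + r * |s k|) + ∑ k, (|b' k| + r * |s' k|) with hRZ
  have hR1 : 0 ≤ ∑ k, (|b k| + r * |s k|) := Finset.sum_nonneg fun i _ => by positivity
  have hR2 : 0 ≤ ∑ k, (|b' k| + r * |s' k|) := Finset.sum_nonneg fun i _ => by positivity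
  obtain ⟨R, hR⟩ := Int.eq_ofNat_of_zero_le (add_nonneg hR1 hR2)
  rw [← hRZ] at hR
  have hb : ∀ (k : κ) (lam : ℤ), |lam| ≤ r → |b k + lam * s k| ≤ R := by
    intro k lam hlam
    have h1 : |b k| + r * |s k| ≤ ∑ k, (|b k| + r * |s k|) :=
      Finset.single_le_sum (f := fun k => |b k| + r * |s k|) (fun i _ => by positivity) (mem_univ k)
    have h2 : |b k + lam * s k| ≤ |b k| + r * |s k| := by
      refine (abs_add_le _ _).trans ?_
      rw [abs_mul]
      gcongr
    have h3 : (R : ℤ) = RZ := hR.symm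
    rw [h3, hRZ]
    linarith
  have hb' : ∀ (k : κ') (lam : ℤ), |lam| ≤ r → |b' k + lam * s' k| ≤ R := by
    intro k lam hlam
    have h1 : |b' k| + r * |s' k| ≤ ∑ k, (|b' k| + r * |s' k|) :=
      Finset.single_le_sum (f := fun k => |b' k| + r * |s' k|) (fun i _ => by positivity)
        (mem_univ k)
    have h2 : |b' k + lam * s' k| ≤ |b' k| + r * |s' k| := by
      refine (abs_add_le _ _).trans ?_
      rw [abs_mul]
      gcongr
    have h3 : (R : ℤ) = RZ := hR.symm
    rw [h3, hRZ]
    linarith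
  -- the index type of the words
  let X : Type := Option (ι × (Fin t × (Fin N × κ)))
  set l := Fintype.card (ι × (Fin t × (Fin N × κ))) with hl
  have hcX : Fintype.card X = l + 1 := Fintype.card_option
  let eX : X ≃ Fin (l + 1) := Fintype.equivFinOfCardEq hcX
  obtain ⟨d, hd, hblocks⟩ := blocks_aux (2 * R + 1) l (by omega)
  obtain ⟨n, hn⟩ := hblocks k
  refine ⟨d * (q * N), n, Nat.mul_pos hd (Nat.mul_pos (by omega) hNpos), fun c => ?_⟩
  obtain ⟨T, hcnt, hinv⟩ := hn (fun w => c (fun i => dec R (w i)))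
  have hT : ∀ x y : Fin (l + 1) → Fin (2 * R + 1), ms x = ms y →
      c (fun i => dec R (ev T x i)) = c (fun i => dec R (ev T y i)) := hinv
  -- words of the Hales-Jewett cube
  let W : (ι → Lam t r) → X → ℤ := fun Φ x => match x with
    | none => 0
    | some (j, (i, (_, k))) => b k + (Φ j).1 i * s k
  have hWr : ∀ Φ x, |W Φ x| ≤ R := by
    intro Φ x
    match x with
    | none => simp [W]
    | some (j, (i, (_, k))) => exact hb k _ ((Φ j).abs_le i)
  obtain ⟨Ln, col, hcol⟩ := hHJ (fun Φ => c (expd T eX (W Φ)))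
  -- the wildcards
  set β := (univ.filter fun j : ι => Ln.idxFun j = none).card with hβ
  have hβ1 : 1 ≤ β := by
    obtain ⟨j, hj⟩ := Ln.proper
    exact Finset.card_pos.2 ⟨j, Finset.mem_filter.2 ⟨mem_univ j, hj⟩⟩
  have hβB : β ≤ Fintype.card ι := Finset.card_le_univ _
  have hβp : β * p ≤ q := (Nat.mul_le_mul_right p hβB).trans hB'
  let z0 : Lam t r := ⟨fun _ => 0, by simp⟩
  let φ : ι → Lam t r := fun j => (Ln.idxFun j).getD z0
  -- the new index type
  let Y : Type := Option (({j : ι // Ln.idxFun j ≠ none} × (Fin t × (Fin N × κ))) ⊕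
    (Fin t × ((Fin ((β - 1) * q) × κ') ⊕ (Fin (q - β * p) × κ))))
  let bY : Y → ℤ := fun y => match y with
    | none => 0
    | some (Sum.inl (j, (i, (_, k)))) => b k + (φ j.1).1 i * s k
    | some (Sum.inr (_, Sum.inl (_, k))) => b' k
    | some (Sum.inr (_, Sum.inr (_, k))) => b k
  let sY : Fin t → Y → ℤ := fun i0 y => match y with
    | none => 0
    | some (Sum.inl _) => 0
    | some (Sum.inr (i, Sum.inl (_, k))) => if i0 = i then s' k else 0
    | some (Sum.inr (i, Sum.inr (_, k))) => if i0 = i then s k else 0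
  let V : Lam t r → Y → ℤ := fun la y => bY y + ∑ i, la.1 i * sY i y
  have hV0 : ∀ la, V la none = 0 := by intro la; simp [V, bY, sY]
  have hV1 : ∀ (la : Lam t r) (j : {j : ι // Ln.idxFun j ≠ none}) (i : Fin t) (e : Fin N) (k : κ),
      V la (some (Sum.inl (j, (i, (e, k))))) = b k + (φ j.1).1 i * s k := by
    intro la j i e k; simp [V, bY, sY]
  have hV2 : ∀ (la : Lam t r) (i : Fin t) (e : Fin ((β - 1) * q)) (k : κ'),
      V la (some (Sum.inr (i, Sum.inl (e, k)))) = b' k + la.1 i * s' k := by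
    intro la i e k; simp [V, bY, sY]
  have hV3 : ∀ (la : Lam t r) (i : Fin t) (e : Fin (q - β * p)) (k : κ),
      V la (some (Sum.inr (i, Sum.inr (e, k)))) = b k + la.1 i * s k := by
    intro la i e k; simp [V, bY, sY]
  have hVr : ∀ la y, |V la y| ≤ R := by
    intro la y
    match y with
    | none => rw [hV0]; simp
    | some (Sum.inl (j, (i, (e, k)))) => rw [hV1 la j i e k]; exact hb k _ ((φ j.1).abs_le i)
    | some (Sum.inr (i, Sum.inl (e, k))) => rw [hV2 la i e k]; exact hb' k _ (la.abs_le i)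
    | some (Sum.inr (i, Sum.inr (e, k))) => rw [hV3 la i e k]; exact hb k _ (la.abs_le i)
  -- equidistribution
  have hsums : ∀ (la : Lam t r) (g : ℤ → ℕ), ∑ x, g (W (Ln la) x) = ∑ y, g (V la y) := by
    intro la g
    have hS : ∀ lam : ℤ, |lam| ≤ r → ∑ k, g (b k + lam * s k) = ∑ k, g (b' k + lam * s' k) :=
      fun lam hlam => sum_of_counts _ _ (hfam lam hlam) g
    have e1 : ∑ x, g (W (Ln la) x) = g 0 + ∑ j : ι, ∑ i : Fin t,
        N * ∑ k, g (b k + ((Ln la) j).1 i * s k) := by
      rw [Fintype.sum_option]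
      congr 1
      rw [Fintype.sum_prod_type]
      refine Finset.sum_congr rfl fun j _ => ?_
      rw [Fintype.sum_prod_type]
      refine Finset.sum_congr rfl fun i _ => ?_
      rw [Fintype.sum_prod_type]
      simp [W]
    have e2 : ∑ y, g (V la y) = g 0 + (∑ j : {j : ι // Ln.idxFun j ≠ none}, ∑ i : Fin t,
        N * ∑ k, g (b k + (φ j.1).1 i * s k) +
        ∑ i : Fin t, (((β - 1) * q) * ∑ k, g (b' k + la.1 i * s' k) +
          (q - β * p) * ∑ k, g (b k + la.1 i * s k))) := by
      rw [Fintype.sum_option, hV0]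
      congr 1
      rw [Fintype.sum_sum_type]
      congr 1
      · rw [Fintype.sum_prod_type]
        refine Finset.sum_congr rfl fun j _ => ?_
        rw [Fintype.sum_prod_type]
        refine Finset.sum_congr rfl fun i _ => ?_
        rw [Fintype.sum_prod_type]
        simp only [hV1]
        simp
      · rw [Fintype.sum_prod_type]
        refine Finset.sum_congr rfl fun i _ => ?_
        rw [Fintype.sum_sum_type, Fintype.sum_prod_type, Fintype.sum_prod_type]
        simp only [hV2, hV3]
        simp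
    rw [e1, e2]
    congr 1
    have e3 : ∀ i : Fin t, ((β - 1) * q) * ∑ k, g (b' k + la.1 i * s' k) +
          (q - β * p) * ∑ k, g (b k + la.1 i * s k) =
        β * (N * ∑ k, g (b k + la.1 i * s k)) := by
      intro i
      rw [← hS (la.1 i) (la.abs_le i), ← add_mul, ← mul_assoc]
      congr 1
      obtain ⟨β', hβ'⟩ : ∃ β', β = β' + 1 := ⟨β - 1, by omega⟩
      rw [hβ'] at hβp ⊢
      rw [Nat.add_sub_cancel]
      obtain ⟨w, hw⟩ := Nat.exists_eq_add_of_le hβp
      have : q - (β' + 1) * p = w := by omega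
      rw [this]
      nlinarith
    rw [Finset.sum_congr rfl fun i _ => e3 i, ← Finset.mul_sum]
    rw [← Finset.sum_filter_add_sum_filter_not univ (fun j : ι => Ln.idxFun j ≠ none)]
    congr 1
    · rw [← Finset.sum_subtype (univ.filter fun j : ι => Ln.idxFun j ≠ none)
        (p := fun j => Ln.idxFun j ≠ none) (by simp)
        (fun j => ∑ i : Fin t, N * ∑ k, g (b k + (φ j).1 i * s k))]
      refine Finset.sum_congr rfl fun j hj => ?_
      have hj' := (Finset.mem_filter.1 hj).2
      obtain ⟨a, ha⟩ := Option.ne_none_iff_exists'.1 hj'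
      have h1 : (Ln la) j = a := by
        show (Ln.idxFun j).getD la = a
        rw [ha]; rfl
      have h2 : φ j = a := by simp only [φ]; rw [ha]; rfl
      rw [h1, h2]
    · have h1 : ∀ j ∈ univ.filter (fun j : ι => ¬ Ln.idxFun j ≠ none), (∑ i : Fin t,
          N * ∑ k, g (b k + ((Ln la) j).1 i * s k)) =
          ∑ i : Fin t, N * ∑ k, g (b k + la.1 i * s k) := by
        intro j hj
        have hj' := not_not.1 (Finset.mem_filter.1 hj).2
        have : (Ln la) j = la := by
          show (Ln.idxFun j).getD la = la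
          rw [hj']; rfl
        rw [this]
      rw [Finset.sum_congr rfl h1, Finset.sum_const, smul_eq_mul]
      congr 1
      rw [hβ]
      congr 1
      apply Finset.filter_congr
      intro j _
      simp
  have hcY : Fintype.card Y = l + 1 := by
    have h1 := hsums z0 (fun _ => 1)
    simp only [Finset.sum_const, Finset.card_univ, smul_eq_mul, mul_one] at h1
    rw [← h1]; exact hcX
  let eY : Y ≃ Fin (l + 1) := Fintype.equivFinOfCardEq hcY
  have hcolY : ∀ la : Lam t r, c (expd T eY (V la)) = col := by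
    intro la
    rw [← hcol la]
    exact (expd_inv T c hT eX eY (W (Ln la)) (V la) (hWr _) (hVr _) (hsums la)).symm
  have hdis : ∀ (i i' : Fin t) (y : Y), i ≠ i' → sY i y = 0 ∨ sY i' y = 0 := by
    intro i i' y hii'
    match y with
    | none => left; rfl
    | some (Sum.inl _) => left; rfl
    | some (Sum.inr (i0, Sum.inl (e, k))) =>
      by_cases h : i = i0
      · right
        show (if i' = i0 then s' k else 0) = 0
        rw [if_neg (by rw [← h]; exact hii'.symm)]
      · left
        show (if i = i0 then s' k else 0) = 0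
        rw [if_neg h]
    | some (Sum.inr (i0, Sum.inr (e, k))) =>
      by_cases h : i = i0
      · right
        show (if i' = i0 then s k else 0) = 0
        rw [if_neg (by rw [← h]; exact hii'.symm)]
      · left
        show (if i = i0 then s k else 0) = 0
        rw [if_neg h]
  refine ⟨fun i a => Sum.elim (fun j => sY i (eY.symm j)) (fun _ => (0 : ℤ)) (T a), ?_, ?_,
    expd T eY (V z0), ?_⟩
  · intro i i' hii' a
    show Sum.elim (fun j => sY i (eY.symm j)) (fun _ => (0 : ℤ)) (T a) = 0 ∨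
      Sum.elim (fun j => sY i' (eY.symm j)) (fun _ => (0 : ℤ)) (T a) = 0
    rcases T a with j | w
    · exact hdis i i' (eY.symm j) hii'
    · left; rfl
  · intro i
    rw [sum_expd T hcnt (fun j => sY i (eY.symm j))]
    have h1 : ∑ j, |sY i (eY.symm j)| = ∑ y, |sY i y| :=
      Equiv.sum_comp eY.symm (fun y => |sY i y|)
    rw [h1]
    have h2 : ∑ y, |sY i y| = ((β - 1) * q : ℕ) * ∑ k, |s' k| +
        ((q - β * p : ℕ) : ℤ) * ∑ k, |s k| := by
      rw [Fintype.sum_option]
      have z1 : |sY i none| = 0 := by simp [sY]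
      rw [z1, zero_add, Fintype.sum_sum_type]
      have z2 : ∀ y, |sY i (some (Sum.inl y))| = 0 := by intro y; simp [sY]
      simp only [z2, Finset.sum_const_zero, zero_add]
      rw [Fintype.sum_prod_type, Finset.sum_eq_single i]
      · rw [Fintype.sum_sum_type, Fintype.sum_prod_type, Fintype.sum_prod_type]
        simp [sY]
      · intro i' _ hi'
        refine Finset.sum_eq_zero fun y _ => ?_
        rcases y with ⟨e, k⟩ | ⟨e, k⟩
        · simp [sY, hi'.symm]
        · simp [sY, hi'.symm]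
      · intro h; exact absurd (mem_univ i) h
    rw [h2, hq, hp]
    push_cast
    congr 1
    obtain ⟨β', hβ'⟩ : ∃ β', β = β' + 1 := ⟨β - 1, by omega⟩
    rw [hβ'] at hβp ⊢
    rw [Nat.add_sub_cancel]
    obtain ⟨w, hw⟩ := Nat.exists_eq_add_of_le hβp
    have h3 : q - (β' + 1) * p = w := by omega
    rw [h3]
    have h4 : (q : ℤ) = (β' + 1) * p + w := by exact_mod_cast hw
    have h5 : (q : ℤ) = p + N := by exact_mod_cast hN
    linear_combination (-(q : ℤ)) * h4 + (q : ℤ) * h5
  · intro la hla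
    have key : expd T eY (V z0) + ∑ i : Fin t, la i •
        (fun a => Sum.elim (fun j => sY i (eY.symm j)) (fun _ => (0 : ℤ)) (T a)) =
        expd T eY (V ⟨la, hla⟩) := by
      funext a
      simp only [Pi.add_apply, Finset.sum_apply, Pi.smul_apply, smul_eq_mul]
      unfold expd
      rcases T a with j | w
      · simp only [Sum.elim_inl]
        simp [V, z0]
      · simp
    rw [key, hcolY, hcolY]

end Pool.Agent.H228R6
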